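import Pool.Agent.H8.ZA.Targets

/-!
# Modules CAL GRO SYM
-/

open Filter Topology

namespace Pool.Agent.H54.ZA

open Pool.Agent.H8.ZA

theorem pf_CAL : T_CAL := by
  intro d e D Λ hd he hD hdΛ heΛ
  have hΛ : 1 ≤ Λ := hd.trans hdΛ
  set q : ℕ := (D + 64 * d * D * Λ) * d / e with hq
  have hqe : e * q ≤ (D + 64 * d * D * Λ) * d := by
    rw [hq, mul_comm]; exact Nat.div_mul_le_self _ _
  set T : ℕ := (64 * d * D * Λ + 1) * (64 * d * D * Λ + 2) / 2 with hT
  have hT2 : 2048 * d ^ 2 * D ^ 2 * Λ ^ 2 ≤ T := by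
    rw [hT, Nat.le_div_iff_mul_le (by norm_num)]
    nlinarith [Nat.zero_le (d * D * Λ)]
  -- monomials
  have m1 : 1 ≤ d * D * Λ * e := Nat.succ_le_of_lt (by positivity)
  have eJ : e * (64 * d * D * d + q + 1) ≤ 130 * (d ^ 2 * D * Λ) := by
    have a1 : d ^ 2 * D * e ≤ d ^ 2 * D * Λ := Nat.mul_le_mul_left _ heΛ
    have a2 : D * d ≤ d ^ 2 * D * Λ := by
      calc D * d = d * D * 1 * 1 := by ring
        _ ≤ d * D * d * Λ := by gcongr
        _ = d ^ 2 * D * Λ := by ring
    have a3 : e ≤ d ^ 2 * D * Λ := by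
      calc e = 1 * 1 * e := by ring
        _ ≤ d ^ 2 * D * Λ := by
          gcongr
          exact Nat.one_le_pow _ _ hd
    calc e * (64 * d * D * d + q + 1) = 64 * (d ^ 2 * D * e) + e * q + e := by ring
      _ ≤ 64 * (d ^ 2 * D * Λ) + (D + 64 * d * D * Λ) * d + d ^ 2 * D * Λ := by gcongr
      _ = 64 * (d ^ 2 * D * Λ) + D * d + 64 * (d ^ 2 * D * Λ) + d ^ 2 * D * Λ := by ring
      _ ≤ 130 * (d ^ 2 * D * Λ) := by omega
  have eL : 64 * d * D * d + (64 * d * D * Λ + D) * e + 1 ≤ 130 * (d * D * Λ * e) := by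
    have b1 : d * D * d ≤ d * D * Λ * e := by
      calc d * D * d = d * D * d * 1 := by ring
        _ ≤ d * D * Λ * e := by gcongr
    have b2 : D * e ≤ d * D * Λ * e := by
      calc D * e = 1 * D * 1 * e := by ring
        _ ≤ d * D * Λ * e := by gcongr
    calc 64 * d * D * d + (64 * d * D * Λ + D) * e + 1
        = 64 * (d * D * d) + 64 * (d * D * Λ * e) + D * e + 1 := by ring
      _ ≤ 130 * (d * D * Λ * e) := by omega
  have hpos : 0 < d ^ 3 * D ^ 4 * Λ ^ 2 * e := by positivity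
  have key : e * (D ^ 2 * ((64 * d * D * d + q + 1) *
      (64 * d * D * d + (64 * d * D * Λ + D) * e + 1))) <
      e * ((64 * d * D + 1) * D * T) := by
    calc e * (D ^ 2 * ((64 * d * D * d + q + 1) *
          (64 * d * D * d + (64 * d * D * Λ + D) * e + 1)))
        = D ^ 2 * ((e * (64 * d * D * d + q + 1)) *
          (64 * d * D * d + (64 * d * D * Λ + D) * e + 1)) := by ring
      _ ≤ D ^ 2 * ((130 * (d ^ 2 * D * Λ)) * (130 * (d * D * Λ * e))) := by gcongr
      _ = 16900 * (d ^ 3 * D ^ 4 * Λ ^ 2 * e) := by ring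
      _ < 131072 * (d ^ 3 * D ^ 4 * Λ ^ 2 * e) := by omega
      _ = e * ((64 * d * D) * D * (2048 * d ^ 2 * D ^ 2 * Λ ^ 2)) := by ring
      _ ≤ e * ((64 * d * D + 1) * D * T) := by
        gcongr
        omega
  exact Nat.lt_of_mul_lt_mul_left key

theorem core (d e : ℕ → ℕ) (L L' : ℝ) (hd : ∀ n, 1 ≤ d n) (he : ∀ n, 1 ≤ e n)
    (hdd : ∀ m n, d (m + n) ≤ d m * d n) (hL : 0 < L) (hLL : L' ≤ L)
    (h1 : Tendsto (fun n : ℕ => Real.log (d n) / n) atTop (𝓝 L))
    (h2 : Tendsto (fun n : ℕ => Real.log (e n) / n) atTop (𝓝 L'))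
    (h3 : ∀ n : ℕ, n ≠ 0 → L ≤ Real.log (d n) / n) :
    ∃ m ≥ 1, Good (d m) (e m) (d (m + m)) := by
  have e1 : ∀ᶠ n : ℕ in atTop, Real.log (d n) / n < 9 / 8 * L :=
    h1.eventually (gt_mem_nhds (by linarith))
  have e2 : ∀ᶠ n : ℕ in atTop, Real.log (e n) / n < 9 / 8 * L :=
    h2.eventually (gt_mem_nhds (by linarith))
  have e3 : ∀ᶠ n : ℕ in atTop, Real.log 16768 / (5 / 8 * L) ≤ (n : ℝ) :=
    tendsto_natCast_atTop_atTop.eventually_ge_atTop _
  obtain ⟨m, hm1, hm2, hm3, hm4⟩ := (e1.and (e2.and (e3.and (eventually_ge_atTop 1)))).exists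
  refine ⟨m, hm4, ?_⟩
  have hm0 : (0 : ℝ) < m := by exact_mod_cast hm4
  rw [div_lt_iff₀ hm0] at hm1 hm2
  rw [div_le_iff₀ (by positivity)] at hm3
  have hdpos : (0 : ℝ) < d m := by exact_mod_cast hd m
  have hepos : (0 : ℝ) < e m := by exact_mod_cast he m
  have hDpos : (0 : ℝ) < d (m + m) := by exact_mod_cast hd (m + m)
  set E : ℝ := Real.exp (9 / 8 * L * m) with hE
  have hE0 : 0 < E := Real.exp_pos _
  have b1 : (d m : ℝ) ≤ E := (Real.log_le_iff_le_exp hdpos).1 hm1.le
  have b2 : (e m : ℝ) ≤ E := (Real.log_le_iff_le_exp hepos).1 hm2.le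
  have b3 : (d (m + m) : ℝ) ≤ E ^ 2 := by
    calc (d (m + m) : ℝ) ≤ (d m : ℝ) * d m := by exact_mod_cast hdd m m
      _ ≤ E * E := mul_le_mul b1 b1 hdpos.le hE0.le
      _ = E ^ 2 := by ring
  have b4 : Real.exp (2 * L * m) ≤ d (m + m) := by
    rw [← Real.le_log_iff_exp_le hDpos]
    have h4 := h3 (m + m) (by omega)
    rw [le_div_iff₀ (by positivity)] at h4
    push_cast at h4
    linarith
  have b5 : 16768 * E ^ 3 ≤ Real.exp (2 * L * m) ^ 2 := by
    have c1 : (16768 : ℝ) ≤ Real.exp (m * (5 / 8 * L)) :=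
      (Real.log_le_iff_le_exp (by norm_num)).1 hm3
    have c2 : Real.exp (2 * L * m) ^ 2 = Real.exp (m * (5 / 8 * L)) * E ^ 3 := by
      rw [hE, ← Real.exp_nat_mul, ← Real.exp_nat_mul, ← Real.exp_add]
      congr 1
      push_cast
      ring
    rw [c2]
    exact mul_le_mul_of_nonneg_right c1 (by positivity)
  have fin : (128 : ℝ) * d m * (130 * d m * max (d m : ℝ) (e m : ℝ) + d (m + m)) ≤
      (d (m + m) : ℝ) ^ 2 := by
    have b6 : max (d m : ℝ) (e m : ℝ) ≤ E := max_le b1 b2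
    have b7 : (0 : ℝ) ≤ max (d m : ℝ) (e m : ℝ) := le_max_of_le_left hdpos.le
    calc (128 : ℝ) * d m * (130 * d m * max (d m : ℝ) (e m : ℝ) + d (m + m))
        ≤ 128 * E * (130 * E * E + E ^ 2) := by gcongr
      _ = 16768 * E ^ 3 := by ring
      _ ≤ Real.exp (2 * L * m) ^ 2 := b5
      _ ≤ (d (m + m) : ℝ) ^ 2 := by
        exact pow_le_pow_left₀ (Real.exp_pos _).le b4 2
  unfold Good
  have : ((128 * d m * (130 * d m * max (d m) (e m) + d (m + m)) : ℕ) : ℝ) ≤
      ((d (m + m) ^ 2 : ℕ) : ℝ) := by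
    push_cast
    exact fin
  exact_mod_cast this

theorem sub_of (d : ℕ → ℕ) (hd : ∀ n, 1 ≤ d n) (hdd : ∀ m n, d (m + n) ≤ d m * d n) :
    Subadditive (fun n => Real.log (d n)) := by
  intro m n
  have h1 : (0 : ℝ) < d m := by exact_mod_cast hd m
  have h2 : (0 : ℝ) < d n := by exact_mod_cast hd n
  have h3 : (0 : ℝ) < d (m + n) := by exact_mod_cast hd (m + n)
  show Real.log (d (m + n)) ≤ Real.log (d m) + Real.log (d n)
  rw [← Real.log_mul h1.ne' h2.ne']
  exact Real.log_le_log h3 (by exact_mod_cast hdd m n)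

theorem bdd_of (d : ℕ → ℕ) : BddBelow (Set.range fun n : ℕ => Real.log (d n) / n) := by
  refine ⟨0, ?_⟩
  rintro _ ⟨n, rfl⟩
  exact div_nonneg (Real.log_natCast_nonneg _) (Nat.cast_nonneg _)

theorem pf_GRO : T_GRO := by
  intro d e c hd he hdd hee hc hgr
  have sd := sub_of d hd hdd
  have se := sub_of e he hee
  have td := sd.tendsto_lim (bdd_of d)
  have te := se.tendsto_lim (bdd_of e)
  have ld : ∀ n : ℕ, n ≠ 0 → sd.lim ≤ Real.log (d n) / n :=
    fun n hn => sd.lim_le_div (bdd_of d) hn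
  have le' : ∀ n : ℕ, n ≠ 0 → se.lim ≤ Real.log (e n) / n :=
    fun n hn => se.lim_le_div (bdd_of e) hn
  have hlog : 0 < Real.log c := Real.log_pos hc
  have hL : Real.log c ≤ sd.lim := by
    by_contra hlt
    push Not at hlt
    have h1 : ∀ᶠ n : ℕ in atTop, Real.log (d n) / n < Real.log c :=
      td.eventually (gt_mem_nhds hlt)
    obtain ⟨N, hN⟩ := eventually_atTop.1 h1
    obtain ⟨n, hn, hcn⟩ := hgr (max N 1)
    have h2 := hN n ((le_max_left _ _).trans hn)
    have hn0 : (0 : ℝ) < n := by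
      have : 1 ≤ n := (le_max_right _ _).trans hn
      exact_mod_cast this
    rw [div_lt_iff₀ hn0] at h2
    have h3 : Real.log (c ^ n) ≤ Real.log (d n) :=
      Real.log_le_log (by positivity) hcn
    rw [Real.log_pow] at h3
    linarith
  rcases le_or_gt se.lim sd.lim with h | h
  · obtain ⟨m, hm, hg⟩ := core d e sd.lim se.lim hd he hdd (hlog.trans_le hL) h td te ld
    exact ⟨m, hm, Or.inl hg⟩
  · obtain ⟨m, hm, hg⟩ := core e d se.lim sd.lim he hd hee ((hlog.trans_le hL).trans h) h.le te td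
      le'
    exact ⟨m, hm, Or.inr hg⟩

section sym

open Polynomial

variable {Ω : Type} [Field Ω] {Γ : Type} [LinearOrderedCommGroupWithZero Γ] (w : Valuation Ω Γ)

theorem sym_step (F : Polynomial Ω) (hF : F ≠ 0) (η : Ω) (m : ℕ) :
    ∃ n, max 1 (w η) * w (F.coeff m) ≤ w (((X - C η) * F).coeff n) := by
  classical
  obtain ⟨m0, hm0, hmax⟩ := Finset.exists_max_image F.support (fun n => w (F.coeff n))
    (support_nonempty.2 hF)
  have hm0' : F.coeff m0 ≠ 0 := mem_support_iff.1 hm0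
  have hpos : 0 < w (F.coeff m0) := by
    rw [zero_lt_iff]
    exact (Valuation.ne_zero_iff w).2 hm0'
  have hle : ∀ n, w (F.coeff n) ≤ w (F.coeff m0) := by
    intro n
    by_cases hn : n ∈ F.support
    · exact hmax n hn
    · rw [notMem_support_iff.1 hn, map_zero]
      exact zero_le'
  set μ := w (F.coeff m0) with hμ
  -- indices where the maximum is attained
  set A := F.support.filter fun n => w (F.coeff n) = μ with hA
  have hAne : A.Nonempty := ⟨m0, Finset.mem_filter.2 ⟨hm0, rfl⟩⟩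
  have hnot : ∀ n, n ∉ A → w (F.coeff n) < μ := by
    intro n hn
    rcases lt_or_eq_of_le (hle n) with h | h
    · exact h
    · exfalso
      apply hn
      refine Finset.mem_filter.2 ⟨mem_support_iff.2 ?_, h⟩
      intro h0
      rw [h0, map_zero] at h
      exact hpos.ne h
  suffices ∃ n, max 1 (w η) * μ ≤ w (((X - C η) * F).coeff n) by
    obtain ⟨n, hn⟩ := this
    refine ⟨n, le_trans ?_ hn⟩
    gcongr
    exact hle m
  rcases le_or_gt (w η) 1 with hη | hη
  · rw [max_eq_left hη, one_mul]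
    have hmem := Finset.max'_mem A hAne
    set n := A.max' hAne with hn
    have hval : w (F.coeff n) = μ := (Finset.mem_filter.1 hmem).2
    refine ⟨n + 1, ?_⟩
    rw [coeff_X_sub_C_mul]
    have hlt : w (F.coeff (n + 1)) < μ := by
      apply hnot
      intro h
      have := Finset.le_max' A _ h
      omega
    have hlt2 : w (η * F.coeff (n + 1)) < w (F.coeff n) := by
      rw [map_mul, hval]
      calc w η * w (F.coeff (n + 1)) ≤ 1 * w (F.coeff (n + 1)) := by gcongr
        _ = w (F.coeff (n + 1)) := one_mul _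
        _ < μ := hlt
    rw [Valuation.map_sub_eq_of_lt_left w hlt2, hval]
  · rw [max_eq_right hη.le]
    have hmem := Finset.min'_mem A hAne
    set n := A.min' hAne with hn
    have hval : w (F.coeff n) = μ := (Finset.mem_filter.1 hmem).2
    refine ⟨n, ?_⟩
    cases hcase : n with
    | zero =>
      rw [hcase] at hval
      have e1 : ((X - C η) * F).coeff 0 = -(η * F.coeff 0) := by
        rw [mul_coeff_zero]; simp
      rw [e1, Valuation.map_neg, map_mul, hval]
    | succ k =>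
      rw [coeff_X_sub_C_mul]
      rw [hcase] at hval
      have hlt : w (F.coeff k) < w (η * F.coeff (k + 1)) := by
        have h1 : w (F.coeff k) < μ := by
          apply hnot
          intro h
          have := Finset.min'_le A _ h
          omega
        rw [map_mul, hval]
        calc w (F.coeff k) < μ := h1
          _ = 1 * μ := (one_mul _).symm
          _ ≤ w η * μ := by gcongr
      rw [Valuation.map_sub_eq_of_lt_right w hlt, map_mul, hval]

theorem sym_aux (s : Multiset Ω) :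
    (s.map fun η => (X - C η : Polynomial Ω)).prod ≠ 0 ∧
    ∃ n, (s.map fun η => max 1 (w η)).prod ≤
      w (((s.map fun η => (X - C η : Polynomial Ω)).prod).coeff n) := by
  induction s using Multiset.induction with
  | empty =>
    refine ⟨by simp, 0, ?_⟩
    simp
  | cons η s ih =>
    obtain ⟨h0, n, hn⟩ := ih
    refine ⟨?_, ?_⟩
    · rw [Multiset.map_cons, Multiset.prod_cons]
      exact mul_ne_zero (X_sub_C_ne_zero η) h0
    · obtain ⟨n', hn'⟩ := sym_step w _ h0 η n
      refine ⟨n', ?_⟩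
      rw [Multiset.map_cons, Multiset.prod_cons, Multiset.map_cons, Multiset.prod_cons]
      refine le_trans ?_ hn'
      gcongr

end sym

theorem pf_SYM : T_SYM := by
  intro Ω _ Γ _ w s g h
  obtain ⟨_, n, hn⟩ := sym_aux w s
  exact hn.trans (h n)

end Pool.Agent.H54.ZA
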