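import Pool.Agent.H8.ZA.Targets

/-!
# Modules GNB GND GNC
-/

open MvPolynomial

namespace Pool.Agent.H54.ZA

open Pool.Agent.H8.ZA

theorem alg_inj (k : Type) [Field k] (N : ℕ) :
    Function.Injective (algebraMap (MvPolynomial (Fin N × Fin 4) k) (GF k N)) :=
  IsFractionRing.injective _ _

theorem coeff_bc {k : Type} [Field k] (N : ℕ) (q : Po k) (m : Fin 3 →₀ ℕ) :
    coeff m (bc N q) = algebraMap (MvPolynomial (Fin N × Fin 4) k) (GF k N) (C (coeff m q)) := by
  unfold bc
  rw [coeff_map]
  rw [IsScalarTower.algebraMap_apply k (MvPolynomial (Fin N × Fin 4) k) (GF k N)]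
  rfl

theorem pf_GNB : T_GNB := by
  classical
  intro k _ N j Xt d ⟨i0, hi0⟩
  set m : Fin 3 →₀ ℕ := Finsupp.single 2 d with hm
  set P : MvPolynomial (Fin N × Fin 4) k :=
    X (j, 0) * C (coeff m (1 : Po k)) + ∑ i : Fin 3, X (j, i.succ) * C (coeff m (Xt i)) with hP
  have e : coeff m (aeval (fun i => bc N (Xt i)) (lin (uu k N j))) =
      algebraMap (MvPolynomial (Fin N × Fin 4) k) (GF k N) P := by
    have e1 : aeval (fun i => bc N (Xt i)) (lin (uu k N j)) =
        C (uu k N j 0) * bc N 1 + ∑ i : Fin 3, C (uu k N j i.succ) * bc N (Xt i) := by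
      unfold lin
      simp only [map_add, map_sum, map_mul, aeval_X, map_one, mul_one]
      congr 1
      · exact aeval_C _ _
      · refine Finset.sum_congr rfl fun i _ => ?_
        congr 1
        exact aeval_C _ _
    rw [e1, hP]
    rw [coeff_add, coeff_C_mul, coeff_sum, map_add, map_sum]
    congr 1
    · rw [coeff_bc, map_mul]; rfl
    · refine Finset.sum_congr rfl fun i _ => ?_
      rw [coeff_C_mul, coeff_bc, map_mul]; rfl
  rw [e]
  intro h0
  have hP0 : P = 0 := alg_inj k N (by rw [h0, map_zero])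
  have h1 := congrArg (eval (fun q : Fin N × Fin 4 => if q = (j, i0.succ) then (1 : k) else 0)) hP0
  rw [hP] at h1
  simp only [map_add, map_sum, map_mul, eval_X, eval_C, map_zero] at h1
  have h2 : ¬ ((j, (0 : Fin 4)) = (j, i0.succ)) := by
    intro h
    exact (Fin.succ_ne_zero i0).symm (Prod.mk.inj h).2
  rw [if_neg h2] at h1
  simp only [zero_mul, zero_add] at h1
  rw [Finset.sum_eq_single i0] at h1
  · simp only [if_true, one_mul] at h1
    exact hi0 h1
  · intro i _ hi
    rw [if_neg, zero_mul]
    intro h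
    exact hi (Fin.succ_injective _ (Prod.mk.inj h).2)
  · intro h; exact absurd (Finset.mem_univ _) h

theorem lin_totalDegree {L : Type} [Field L] (u : Fin 4 → L) : (lin u).totalDegree ≤ 1 := by
  unfold lin
  refine (totalDegree_add _ _).trans (max_le ?_ ?_)
  · rw [totalDegree_C]; omega
  · refine (totalDegree_finsetSum _ _).trans (Finset.sup_le fun i _ => ?_)
    refine (totalDegree_mul _ _).trans ?_
    rw [totalDegree_C, totalDegree_X]

theorem lin_coeff {L : Type} [Field L] (u : Fin 4 → L) (i : Fin 3) :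
    coeff (Finsupp.single i 1) (lin u) = u i.succ := by
  classical
  unfold lin
  rw [coeff_add, coeff_C, coeff_sum]
  have h1 : (0 : Fin 3 →₀ ℕ) ≠ Finsupp.single i 1 := by
    intro h
    have := congrArg (fun f => f i) h
    simp at this
  rw [if_neg h1, zero_add, Finset.sum_eq_single i]
  · rw [coeff_C_mul, coeff_X, if_pos rfl, mul_one]
  · intro b _ hb
    rw [coeff_C_mul, coeff_X, if_neg, mul_zero]
    intro h
    exact hb (Finsupp.single_left_injective one_ne_zero h)
  · intro h; exact absurd (Finset.mem_univ _) h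

theorem uu_ne_zero (k : Type) [Field k] (N : ℕ) (j : Fin N) (i : Fin 4) : uu k N j i ≠ 0 := by
  intro h
  have h1 : (X (j, i) : MvPolynomial (Fin N × Fin 4) k) = 0 :=
    alg_inj k N (by rw [map_zero]; exact h)
  exact X_ne_zero _ h1

theorem pf_GND : T_GND := by
  classical
  intro k _ N i j hij c hc1 hc2
  obtain ⟨a, ha⟩ := hc1
  obtain ⟨b, hb⟩ := hc2
  have hne : ∀ j, lin (uu k N j) ≠ 0 := by
    intro j h
    have := lin_coeff (uu k N j) 0
    rw [h, coeff_zero] at this
    exact uu_ne_zero k N j _ this.symm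
  have hc0 : c ≠ 0 := by
    rintro rfl
    exact hne i (by rw [ha, zero_mul])
  have ha0 : a ≠ 0 := by
    rintro rfl
    exact hne i (by rw [ha, mul_zero])
  have hb0 : b ≠ 0 := by
    rintro rfl
    exact hne j (by rw [hb, mul_zero])
  have d1 := lin_totalDegree (uu k N i)
  have d2 := lin_totalDegree (uu k N j)
  rw [ha, totalDegree_mul_of_isDomain hc0 ha0] at d1
  rw [hb, totalDegree_mul_of_isDomain hc0 hb0] at d2
  rcases Nat.eq_zero_or_pos c.totalDegree with h | h
  · have hC := totalDegree_eq_zero_iff_eq_C.1 h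
    rw [hC]
    refine IsUnit.map C (isUnit_iff_ne_zero.2 ?_)
    intro h0
    rw [h0, C_0] at hC
    exact hc0 hC
  · exfalso
    have ha1 := totalDegree_eq_zero_iff_eq_C.1 (show a.totalDegree = 0 by omega)
    have hb1 := totalDegree_eq_zero_iff_eq_C.1 (show b.totalDegree = 0 by omega)
    set α := coeff 0 a
    set β := coeff 0 b
    have hβ : β ≠ 0 := by
      intro h0
      rw [h0, C_0] at hb1
      exact hb0 hb1
    have hrel : C β * lin (uu k N i) = C α * lin (uu k N j) := by
      rw [ha, hb, ha1, hb1]; ring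
    have r1 := congrArg (coeff (Finsupp.single 0 1)) hrel
    have r2 := congrArg (coeff (Finsupp.single 1 1)) hrel
    rw [coeff_C_mul, coeff_C_mul, lin_coeff, lin_coeff] at r1 r2
    have r3 : uu k N i (Fin.succ 0) * uu k N j (Fin.succ 1) =
        uu k N i (Fin.succ 1) * uu k N j (Fin.succ 0) := by
      refine mul_left_cancel₀ hβ ?_
      linear_combination (uu k N j (Fin.succ 1)) * r1 - (uu k N j (Fin.succ 0)) * r2
    have r4 : (X (i, Fin.succ 0) * X (j, Fin.succ 1) : MvPolynomial (Fin N × Fin 4) k) =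
        X (i, Fin.succ 1) * X (j, Fin.succ 0) := by
      apply alg_inj k N
      rw [map_mul, map_mul]
      exact r3
    have r5 := congrArg (eval (fun q : Fin N × Fin 4 => if q = (i, Fin.succ 0) ∨ q = (j, Fin.succ 1)
      then (1 : k) else 0)) r4
    simp only [map_mul, eval_X] at r5
    have c1 : ((i, Fin.succ 1) : Fin N × Fin 4) ≠ (i, Fin.succ 0) := by
      intro h; exact absurd (Prod.mk.inj h).2 (by decide)
    have c2 : ((i, Fin.succ 1) : Fin N × Fin 4) ≠ (j, Fin.succ 1) := by
      intro h; exact hij (Prod.mk.inj h).1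
    have c3 : ¬ (((i, Fin.succ 1) : Fin N × Fin 4) = (i, Fin.succ 0) ∨
        ((i, Fin.succ 1) : Fin N × Fin 4) = (j, Fin.succ 1)) := by
      rintro (h | h)
      · exact c1 h
      · exact c2 h
    rw [if_neg c3] at r5
    simp at r5

/-- restriction to the axis -/
noncomputable def phi (L : Type) [Field L] : MvPolynomial (Fin 2) L →ₐ[L] Polynomial L :=
  aeval ![Polynomial.X, 0]

theorem coeff_phi {L : Type} [Field L] (R : MvPolynomial (Fin 2) L) (e : ℕ) :
    (phi L R).coeff e = coeff (Finsupp.single 0 e) R := by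
  classical
  induction R using MvPolynomial.induction_on' with
  | monomial s a =>
    unfold phi
    rw [aeval_monomial, coeff_monomial]
    have e1 : (s.prod fun i n => (![Polynomial.X, 0] : Fin 2 → Polynomial L) i ^ n) =
        Polynomial.X ^ s 0 * 0 ^ s 1 := by
      rw [Finsupp.prod_fintype _ _ (fun i => pow_zero _), Fin.prod_univ_two]
      rfl
    rw [e1, Polynomial.algebraMap_eq, Polynomial.coeff_C_mul]
    by_cases h1 : s 1 = 0
    · rw [h1, pow_zero, mul_one, Polynomial.coeff_X_pow]
      by_cases h2 : e = s 0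
      · rw [if_pos h2, if_pos, mul_one]
        ext i
        fin_cases i
        · simp [h2]
        · simp [h1]
      · rw [if_neg h2, if_neg, mul_zero]
        intro h
        apply h2
        rw [h]
        simp
    · rw [zero_pow h1, mul_zero, Polynomial.coeff_zero, mul_zero, if_neg]
      intro h
      apply h1
      rw [h]
      simp
  | add p q hp hq => rw [map_add, Polynomial.coeff_add, hp, hq, coeff_add]

theorem phi_pl {L : Type} [Field L] (u : Fin 4 → L) (Q : Po L) :
    phi L (aeval (pl u) Q) = aeval ![Polynomial.X, 0,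
      Polynomial.C (-(u 3)⁻¹ * u 0) + Polynomial.C (-(u 3)⁻¹ * u 1) * Polynomial.X] Q := by
  have h : (phi L).comp (aeval (pl u)) = aeval ![Polynomial.X, 0,
      Polynomial.C (-(u 3)⁻¹ * u 0) + Polynomial.C (-(u 3)⁻¹ * u 1) * Polynomial.X] := by
    apply algHom_ext
    intro i
    rw [AlgHom.comp_apply, aeval_X, aeval_X]
    unfold pl phi
    fin_cases i
    · simp
    · simp
    · simp [Polynomial.C_mul]
      ring
  rw [← h]
  rfl

/-- coefficient of a monomial on the axis -/
theorem term_coeff {L : Type} [Field L] (a b : L) (m0 m1 m2 e : ℕ) (h : m0 + m2 ≤ e) :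
    (Polynomial.X ^ m0 * (0 : Polynomial L) ^ m1 *
      (Polynomial.C a + Polynomial.C b * Polynomial.X) ^ m2).coeff e =
      if m1 = 0 ∧ m0 + m2 = e then b ^ m2 else 0 := by
  have hdeg : (Polynomial.C a + Polynomial.C b * Polynomial.X).natDegree ≤ 1 := by
    rw [add_comm]
    exact Polynomial.natDegree_linear_le
  by_cases h1 : m1 = 0
  · rw [h1, pow_zero, mul_one]
    by_cases h2 : m0 + m2 = e
    · rw [if_pos ⟨rfl, h2⟩, ← h2, add_comm m0 m2, Polynomial.coeff_X_pow_mul]
      have := Polynomial.coeff_pow_of_natDegree_le (n := 1) (m := m2) hdeg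
      rw [mul_one] at this
      rw [this]
      simp
    · rw [if_neg (by tauto)]
      apply Polynomial.coeff_eq_zero_of_natDegree_lt
      calc (Polynomial.X ^ m0 * (Polynomial.C a + Polynomial.C b * Polynomial.X) ^ m2).natDegree
          ≤ (Polynomial.X ^ m0 : Polynomial L).natDegree +
            ((Polynomial.C a + Polynomial.C b * Polynomial.X) ^ m2).natDegree :=
            Polynomial.natDegree_mul_le
        _ ≤ m0 + m2 * 1 := by
            gcongr
            · exact Polynomial.natDegree_X_pow_le _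
            · exact Polynomial.natDegree_pow_le_of_le _ hdeg
        _ < e := by omega
  · rw [zero_pow h1, mul_zero, zero_mul, Polynomial.coeff_zero, if_neg (by tauto)]

theorem pf_GNC : T_GNC := by
  classical
  intro k _ N j q e hq hc
  rw [← coeff_phi, phi_pl]
  set u := uu k N j with hu
  have hu3 : u 3 ≠ 0 := uu_ne_zero k N j 3
  set a := -(u 3)⁻¹ * u 0
  set b := -(u 3)⁻¹ * u 1 with hb
  set g : Fin 3 → Polynomial (GF k N) := ![Polynomial.X, 0,
    Polynomial.C a + Polynomial.C b * Polynomial.X] with hg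
  have hdeg : ∀ m ∈ q.support, m 0 + m 1 + m 2 ≤ e := by
    intro m hm
    have h1 := le_totalDegree hm
    have h2 : (m.sum fun _ n => n) = m 0 + m 1 + m 2 := by
      rw [Finsupp.sum_fintype _ _ (fun _ => rfl), Fin.sum_univ_three]
    omega
  have e1 : aeval g (bc N q) = ∑ m ∈ q.support,
      Polynomial.C (algebraMap (MvPolynomial (Fin N × Fin 4) k) (GF k N) (C (coeff m q))) *
        (Polynomial.X ^ m 0 * (0 : Polynomial (GF k N)) ^ m 1 *
          (Polynomial.C a + Polynomial.C b * Polynomial.X) ^ m 2) := by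
    conv_lhs => rw [q.as_sum]
    rw [map_sum, map_sum]
    refine Finset.sum_congr rfl fun m _ => ?_
    unfold bc
    rw [map_monomial, aeval_monomial, Finsupp.prod_fintype _ _ (fun i => pow_zero _),
      Fin.prod_univ_three]
    rw [IsScalarTower.algebraMap_apply k (MvPolynomial (Fin N × Fin 4) k) (GF k N)]
    rfl
  set P : MvPolynomial (Fin N × Fin 4) k := ∑ m ∈ q.support, C (coeff m q) *
    (if m 1 = 0 ∧ m 0 + m 2 = e then (-X (j, 1)) ^ m 2 * X (j, 3) ^ (e - m 2) else 0) with hP
  have e2 : (aeval g (bc N q)).coeff e * u 3 ^ e =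
      algebraMap (MvPolynomial (Fin N × Fin 4) k) (GF k N) P := by
    rw [e1, Polynomial.finsetSum_coeff, Finset.sum_mul, hP, map_sum]
    refine Finset.sum_congr rfl fun m hm => ?_
    have hm' := hdeg m hm
    rw [Polynomial.coeff_C_mul, term_coeff a b _ _ _ e (by omega), map_mul, mul_assoc]
    congr 1
    split_ifs with hcond
    · rw [map_mul, map_pow, map_pow, map_neg]
      have e3 : e = m 2 + (e - m 2) := by omega
      have e4 : b ^ m 2 * u 3 ^ e = b ^ m 2 * (u 3 ^ m 2 * u 3 ^ (e - m 2)) := by
        rw [← pow_add, ← e3]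
      rw [e4, ← mul_assoc, ← mul_pow]
      congr 2
      rw [hb]
      have : -(u 3)⁻¹ * u 1 * u 3 = -u 1 := by
        field_simp
      rw [this]
      rfl
    · simp
  intro h0
  rw [h0, zero_mul] at e2
  have hP0 : P = 0 := alg_inj k N (by rw [← e2, map_zero])
  have h1 := congrArg (eval (fun q : Fin N × Fin 4 => if q = (j, 3) then (1 : k) else 0)) hP0
  rw [hP, map_sum, map_zero] at h1
  rw [Finset.sum_eq_single (Finsupp.single 0 e)] at h1
  · rw [map_mul, eval_C] at h1
    simp at h1
    exact hc h1
  · intro m hm hne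
    rw [map_mul]
    split_ifs with hcond
    · have hm2 : m 2 ≠ 0 := by
        intro h2
        apply hne
        ext i
        fin_cases i
        · simp; omega
        · simp [hcond.1]
        · simp [h2]
      rw [map_mul, map_pow, map_neg, eval_X, if_neg (by
        intro h; exact absurd (Prod.mk.inj h).2 (by decide)), neg_zero, zero_pow hm2, zero_mul,
        mul_zero]
    · rw [map_zero, mul_zero]
  · intro hn
    rw [notMem_support_iff.1 hn, C_0, zero_mul, map_zero]

end Pool.Agent.H54.ZA
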