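import Pool.Agent.H8.ZA.Targets

/-!
# Module WBD
-/

open MvPolynomial
open Pool.Agent.H12.ZD (pmap)

namespace Pool.Agent.H54.ZA

open Pool.Agent.H8.ZA

theorem one_le_sz (v : AbsoluteValue Qb ℝ) (x : Fin 3 → Qb) : 1 ≤ sz v x := le_max_left _ _

theorem le_sz (v : AbsoluteValue Qb ℝ) (x : Fin 3 → Qb) (i : Fin 3) : v (x i) ≤ sz v x := by
  unfold sz
  fin_cases i
  · exact (le_max_left _ _).trans (le_max_right _ _)
  · exact ((le_max_left _ _).trans (le_max_right _ _)).trans (le_max_right _ _)
  · exact ((le_max_right _ _).trans (le_max_right _ _)).trans (le_max_right _ _)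

theorem wbd : T_WBD := by
  classical
  intro K F y z A B q hq
  have hM : ∀ i (x : Fin 3 → Qb),
      0 ≤ max 1 (F.abv i (eval x y)) ^ A * sz (F.abv i) (pmap z x) ^ B := by
    intro i x
    have h1 : 0 ≤ max 1 (F.abv i (eval x y)) := le_trans zero_le_one (le_max_left _ _)
    have h2 : 0 ≤ sz (F.abv i) (pmap z x) := le_trans zero_le_one (one_le_sz _ _)
    positivity
  unfold Wsp at hq
  induction hq using Submodule.span_induction with
  | mem q hq =>
    obtain ⟨a, β, ha, hβ, rfl⟩ := hq
    refine ⟨fun _ => 1, ⟨fun _ => le_rfl, by simp⟩, fun i x => ?_⟩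
    rw [one_mul, map_mul, map_pow, map_mul, map_pow, map_prod, map_prod]
    have h1 : F.abv i (eval x y) ^ a ≤ max 1 (F.abv i (eval x y)) ^ A := by
      calc F.abv i (eval x y) ^ a ≤ max 1 (F.abv i (eval x y)) ^ a :=
            pow_le_pow_left₀ (AbsoluteValue.nonneg _ _) (le_max_right _ _) a
        _ ≤ max 1 (F.abv i (eval x y)) ^ A := pow_le_pow_right₀ (le_max_left _ _) ha
    have h2 : ∏ j, F.abv i (eval x (z j ^ β j)) ≤ sz (F.abv i) (pmap z x) ^ B := by
      calc ∏ j, F.abv i (eval x (z j ^ β j)) ≤ ∏ j, sz (F.abv i) (pmap z x) ^ β j := by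
            refine Finset.prod_le_prod (fun j _ => AbsoluteValue.nonneg _ _) fun j _ => ?_
            rw [map_pow, map_pow]
            exact pow_le_pow_left₀ (AbsoluteValue.nonneg _ _) (le_sz (F.abv i) (pmap z x) j) _
        _ = sz (F.abv i) (pmap z x) ^ ∑ j, β j := Finset.prod_pow_eq_pow_sum _ _ _
        _ ≤ sz (F.abv i) (pmap z x) ^ B := pow_le_pow_right₀ (one_le_sz _ _) hβ
    exact mul_le_mul h1 h2 (Finset.prod_nonneg fun j _ => AbsoluteValue.nonneg _ _)
      (pow_nonneg (le_trans zero_le_one (le_max_left _ _)) _)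
  | zero =>
    refine ⟨fun _ => 1, ⟨fun _ => le_rfl, by simp⟩, fun i x => ?_⟩
    rw [map_zero, map_zero, one_mul]
    exact hM i x
  | add q1 q2 _ _ ih1 ih2 =>
    obtain ⟨c1, hc1, h1⟩ := ih1
    obtain ⟨c2, hc2, h2⟩ := ih2
    refine ⟨fun i => c1 i * c2 i * (if i ∈ F.arch then 2 else 1), ⟨fun i => ?_, ?_⟩,
      fun i x => ?_⟩
    · have a1 := hc1.one_le i
      have a2 := hc2.one_le i
      have a3 : (1 : ℝ) ≤ c1 i * c2 i := by nlinarith
      split_ifs
      · linarith
      · linarith
    · refine ((hc1.finite.union hc2.finite).union F.arch.finite_toSet).subset fun i hi => ?_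
      by_contra hn
      simp only [Set.mem_union, Finset.mem_coe, not_or, Set.mem_ofPred_eq, not_not] at hn
      apply hi
      rw [hn.1.1, hn.1.2, if_neg hn.2]
      norm_num
    · set M := max 1 (F.abv i (eval x y)) ^ A * sz (F.abv i) (pmap z x) ^ B with hMdef
      have hM0 : 0 ≤ M := hM i x
      have a1 := hc1.one_le i
      have a2 := hc2.one_le i
      have b1 := h1 i x
      have b2 := h2 i x
      have e1 : c1 i * M ≤ c1 i * c2 i * M := by
        have : c1 i * 1 ≤ c1 i * c2 i := by gcongr
        nlinarith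
      have e2 : c2 i * M ≤ c1 i * c2 i * M := by
        have : 1 * c2 i ≤ c1 i * c2 i := by gcongr
        nlinarith
      rw [map_add]
      dsimp only
      split_ifs with hi
      · calc F.abv i (eval x q1 + eval x q2) ≤ F.abv i (eval x q1) + F.abv i (eval x q2) :=
              AbsoluteValue.add_le _ _ _
          _ ≤ c1 i * c2 i * 2 * M := by linarith
      · calc F.abv i (eval x q1 + eval x q2) ≤
              max (F.abv i (eval x q1)) (F.abv i (eval x q2)) := F.na i hi _ _
          _ ≤ c1 i * c2 i * 1 * M := by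
              rw [mul_one]
              exact max_le (b1.trans e1) (b2.trans e2)
  | smul a q _ ih =>
    obtain ⟨c, hc, h⟩ := ih
    by_cases ha : a = 0
    · refine ⟨fun _ => 1, ⟨fun _ => le_rfl, by simp⟩, fun i x => ?_⟩
      rw [ha, zero_smul, map_zero, map_zero, one_mul]
      exact hM i x
    · refine ⟨fun i => c i * max 1 (F.abv i a), ⟨fun i => ?_, ?_⟩, fun i x => ?_⟩
      · have a1 := hc.one_le i
        have a2 : (1 : ℝ) ≤ max 1 (F.abv i a) := le_max_left _ _
        nlinarith
      · refine (hc.finite.union (F.finite a ha)).subset fun i hi => ?_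
        by_contra hn
        simp only [Set.mem_union, not_or, Set.mem_ofPred_eq, not_not] at hn
        apply hi
        rw [hn.1, hn.2]
        norm_num
      · have b := h i x
        have h0 := AbsoluteValue.nonneg (F.abv i) a
        have h3 : F.abv i a ≤ max 1 (F.abv i a) := le_max_right _ _
        have hM0 := hM i x
        have a1 := hc.one_le i
        rw [smul_eval, map_mul]
        calc F.abv i a * F.abv i (eval x q) ≤ max 1 (F.abv i a) * (c i *
              (max 1 (F.abv i (eval x y)) ^ A * sz (F.abv i) (pmap z x) ^ B)) := by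
              apply mul_le_mul h3 b (AbsoluteValue.nonneg _ _)
              exact le_trans zero_le_one (le_max_left _ _)
          _ = _ := by ring

theorem pf_WBD (_ : T_HUB) : T_WBD := wbd

end Pool.Agent.H54.ZA
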